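import Pool.Agent.H41.ZP.Res
import Pool.Agent.H20.TK.K0
import Pool.Agent.H20.TK.Van

/-!
# [H41 ZP Stp] COROLLARY P (MP_e49dc9_ag): the chain lemma on a subvariety, in points of `X`

`s` a section of `G` on the closure of `z`: the chain lemma for the step by `G`, with pieces `ζ i`, points of `X` in the
closure of `z` where `s` vanishes.

* `step_pt`: for `h0`; `step_van`: for the sections which vanish at the point `x`.
-/

set_option autoImplicit false

namespace Pool.Agent.H41.ZP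

open Pool.Agent.H54.RV Pool.Agent.H83.TU Pool.Agent.H83.TK Pool.Agent.H39.TK Pool.Agent.H20.TK

variable {k K : Type} [Field k] [Field K] [Algebra k K] {X : Mod k K}

/-- the chain lemma on the closure of `z` -/
theorem step_pt [CharZero k] (hX : IsVar X) {H : Cart X} (hH : Ample H) (z : X.P) (G : Cart X) {s : X.kap z}
    (hs : Sec (resD hX z G) 1 s) (hs0 : s ≠ 0) :
    ∃ (r : ℕ) (ζ : Fin r → X.P) (c : Fin r → ℕ),
      (∀ W : Cart X, h0 (resD hX z W) 1 ≤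
        h0 (resD hX z (W * G⁻¹)) 1 + ∑ i, h0 (resD hX (ζ i) (W * (H ^ c i)⁻¹)) 1) ∧
      (∀ W : Cart X, ∃ n₀ : ℕ, ∀ n ≥ n₀, h0 (resD hX z (W * H ^ n)) 1 =
        h0 (resD hX z (W * H ^ n * G⁻¹)) 1 + ∑ i, h0 (resD hX (ζ i) (W * H ^ n * (H ^ c i)⁻¹)) 1) ∧
      ∀ i, Algebra.trdeg k (X.kap (ζ i)) < Algebra.trdeg k (X.kap z) ∧
        ∃ hz : z ⤳ ζ i, (⟨ζ i, hz⟩ : (subM hX z).P) ∉ nz (resD hX z G) 1 s := by
  have hHz := res_ample hX z _ hH
  obtain ⟨hN, hF, hFZ, hS⟩ := serP k _ (subM hX z) (isVar_sub hX z) ⟨_, gen_sub hX z⟩ _ hHz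
  have hE : Effective (prin (subM hX z) s hs0 * resD hX z G) := fun x => by
    have := hs x
    rw [pow_one] at this
    exact this
  obtain ⟨r, ζ, c, h1, h2, h3⟩ := chain_eff (isVar_sub hX z) ⟨_, gen_sub hX z⟩ (resD hX z H) hHz hN hF hFZ hS _ hE
  have key : ∀ (W : Cart X) (i : Fin r), h0 (resD (isVar_sub hX z) (ζ i) (resD hX z W * (resD hX z H ^ c i)⁻¹)) 1 =
      h0 (resD hX (ζ i).1 (W * (H ^ c i)⁻¹)) 1 := fun W i => by
    rw [← map_pow, ← map_inv, ← map_mul, h0_res hX z]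
  have key2 : ∀ W : Cart X, h0 (resD hX z W * (prin (subM hX z) s hs0 * resD hX z G)⁻¹) 1 =
      h0 (resD hX z (W * G⁻¹)) 1 := fun W => by
    rw [h0_prin_inv, ← map_inv, ← map_mul]
  refine ⟨r, fun i => (ζ i).1, c, fun W => ?_, fun W => ?_, fun i => ⟨?_, (ζ i).2, fun hn => h3 i ?_⟩⟩
  · have h4 := h1 (resD hX z W)
    rw [key2] at h4
    simp only [key] at h4
    exact h4
  · obtain ⟨n₀, hn⟩ := h2 (resD hX z W)
    refine ⟨n₀, fun n hn' => ?_⟩
    have h4 := hn n hn'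
    have h5 : resD hX z W * resD hX z H ^ n = resD hX z (W * H ^ n) := by
      rw [← map_pow, ← map_mul]
    rw [h5, key2] at h4
    simp only [key] at h4
    exact h4
  · have h4 := trdeg_lt_eq (isVar_sub hX z) (gen_sub hX z) _ (h3 i)
    rw [trdeg_sub hX z] at h4
    exact h4
  · change Un _ (s * (resD hX z G).eq (ζ i) ^ 1) at hn
    rw [pow_one] at hn
    exact hn

/-- the chain lemma for the sections which vanish at a point -/
theorem step_van [CharZero k] (hX : IsVar X) {H : Cart X} (hH : Ample H) (z : X.P) (x : (subM hX z).P) (G : Cart X)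
    {s : X.kap z} (hs : Sec (resD hX z G) 1 s) (hs0 : s ≠ 0) :
    ∃ (r : ℕ) (ζ : Fin r → X.P) (c : Fin r → ℕ),
      (∀ W : Cart X, hv x (resD hX z W) ≤
        hv x (resD hX z (W * G⁻¹)) + ∑ i, h0 (resD hX (ζ i) (W * (H ^ c i)⁻¹)) 1) ∧
      (∀ W : Cart X, ∃ n₀ : ℕ, ∀ n ≥ n₀, hv x (resD hX z (W * H ^ n)) =
        hv x (resD hX z (W * H ^ n * G⁻¹)) + ∑ i, h0 (resD hX (ζ i) (W * H ^ n * (H ^ c i)⁻¹)) 1) ∧
      ∀ i, Algebra.trdeg k (X.kap (ζ i)) < Algebra.trdeg k (X.kap z) ∧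
        ∃ hz : z ⤳ ζ i, (⟨ζ i, hz⟩ : (subM hX z).P) ∉ nz (resD hX z G) 1 s := by
  have hHz := res_ample hX z _ hH
  obtain ⟨hN, hF, hFZ, hS⟩ := serP k _ (subM hX z) (isVar_sub hX z) ⟨_, gen_sub hX z⟩ _ hHz
  have hE : Effective (prin (subM hX z) s hs0 * resD hX z G) := fun x => by
    have := hs x
    rw [pow_one] at this
    exact this
  obtain ⟨r, ζ, c, h1, h2, h3⟩ := chain_van (isVar_sub hX z) ⟨_, gen_sub hX z⟩ (resD hX z H) hHz hN hF hFZ hS x _ hE
  have key : ∀ (W : Cart X) (i : Fin r), h0 (resD (isVar_sub hX z) (ζ i) (resD hX z W * (resD hX z H ^ c i)⁻¹)) 1 =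
      h0 (resD hX (ζ i).1 (W * (H ^ c i)⁻¹)) 1 := fun W i => by
    rw [← map_pow, ← map_inv, ← map_mul, h0_res hX z]
  have key2 : ∀ W : Cart X, hv x (resD hX z W * (prin (subM hX z) s hs0 * resD hX z G)⁻¹) =
      hv x (resD hX z (W * G⁻¹)) := fun W => by
    rw [hv_prin_inv, ← map_inv, ← map_mul]
  refine ⟨r, fun i => (ζ i).1, c, fun W => ?_, fun W => ?_, fun i => ⟨?_, (ζ i).2, fun hn => h3 i ?_⟩⟩
  · have h4 := h1 (resD hX z W)
    rw [key2] at h4
    simp only [key] at h4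
    exact h4
  · obtain ⟨n₀, hn⟩ := h2 (resD hX z W)
    refine ⟨n₀, fun n hn' => ?_⟩
    have h4 := hn n hn'
    have h5 : resD hX z W * resD hX z H ^ n = resD hX z (W * H ^ n) := by
      rw [← map_pow, ← map_mul]
    rw [h5, key2] at h4
    simp only [key] at h4
    exact h4
  · have h4 := trdeg_lt_eq (isVar_sub hX z) (gen_sub hX z) _ (h3 i)
    rw [trdeg_sub hX z] at h4
    exact h4
  · change Un _ (s * (resD hX z G).eq (ζ i) ^ 1) at hn
    rw [pow_one] at hn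
    exact hn

end Pool.Agent.H41.ZP
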