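import Pool.Agent.H83.TK.Dim
import Pool.Agent.H39.TK.Use

/-!
# [H41 ZP Res] COROLLARY P (MP_e49dc9_ag): restriction in two steps

`y` a point of the closed subvariety `subM hX z`.  The restriction to the closure of `y` in `subM hX z` of the
restriction of `D` is the restriction of `D` to the closure of `y.1` in `X`, with the identification `kapE` of the
residue fields.

* `res_sec`: sections; `h0_res`: the numbers of sections; `hv_res`: the sections which vanish at a point.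
-/

set_option autoImplicit false

namespace Pool.Agent.H41.ZP

open Pool.Agent.H54.RV Pool.Agent.H83.TU Pool.Agent.H83.TK Pool.Agent.H39.TK

variable {k K : Type} [Field k] [Field K] [Algebra k K] {X : Mod k K}

/-- the local rings -/
theorem kap_O (hX : IsVar X) (z : X.P) {y w : (subM hX z).P} (h : y ⤳ w) (c : (subM hX z).kap y) :
    c ∈ subO (subM hX z) y w ↔ kapE hX z y c ∈ subO X y.1 w.1 := by
  have h1 : y.1 ⤳ w.1 := (subM_spec hX z y w).1 h
  rw [subO_iff (isVar_sub hX z) h, subO_iff hX h1]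
  constructor
  · rintro ⟨b, hb, rfl⟩
    obtain ⟨a, ha, rfl⟩ := (subO_iff hX w.2 b).1 hb
    exact ⟨a, ha, (kapE_rs hX z y (hX.spec _ _ h1 ha)).symm⟩
  · rintro ⟨a, ha, h2⟩
    refine ⟨X.rs z a, rs_mem_subO hX w.2 ha, ?_⟩
    apply (kapE hX z y).injective
    rw [kapE_rs hX z y (hX.spec _ _ h1 ha), h2]

/-- the local equations -/
theorem res_eq (hX : IsVar X) (z : X.P) (D : Cart X) (y w : (subM hX z).P) (h : y ⤳ w) :
    kapE hX z y ((resD (isVar_sub hX z) y (resD hX z D)).eq ⟨w, h⟩) =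
      (resD hX y.1 D).eq ⟨w.1, (subM_spec hX z y w).1 h⟩ := by
  rw [resD_eq, resD_eq]
  change kapE hX z y ((subM hX z).rs y (X.rs z (D.eq w.1 / D.eq z) / X.rs z (D.eq y.1 / D.eq z))) = _
  rw [rs_quo D z y.1 w.1 y.2 w.2, kapE_rs hX z y (quo_un D y.1 w.1 ((subM_spec hX z y w).1 h)).2.1]
  rfl

theorem res_sec (hX : IsVar X) (z : X.P) (D : Cart X) (n : ℕ) (y : (subM hX z).P) (c : (subM hX z).kap y) :
    Sec (resD (isVar_sub hX z) y (resD hX z D)) n c ↔ Sec (resD hX y.1 D) n (kapE hX z y c) := by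
  constructor
  · intro h x
    have h1 : z ⤳ x.1 := y.2.trans x.2
    have h2 : y ⤳ (⟨x.1, h1⟩ : (subM hX z).P) := (subM_spec hX z _ _).2 x.2
    have h3 := h ⟨⟨x.1, h1⟩, h2⟩
    have h4 := (kap_O hX z h2 _).1 h3
    rw [map_mul, map_pow, res_eq] at h4
    exact h4
  · intro h x
    have h3 := h ⟨x.1.1, (subM_spec hX z _ _).1 x.2⟩
    refine (kap_O hX z x.2 _).2 ?_
    rw [map_mul, map_pow]
    have h5 := res_eq hX z D y x.1 x.2
    change kapE hX z y c * kapE hX z y ((resD (isVar_sub hX z) y (resD hX z D)).eq ⟨x.1, x.2⟩) ^ n ∈ _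
    rw [h5]
    exact h3

theorem res_un (hX : IsVar X) (z : X.P) {y w : (subM hX z).P} (h : y ⤳ w) (c : (subM hX z).kap y) :
    Un (subO (subM hX z) y w) c ↔ Un (subO X y.1 w.1) (kapE hX z y c) := by
  unfold Un
  rw [kap_O hX z h, kap_O hX z h, map_inv₀, map_ne_zero]

theorem res_nz (hX : IsVar X) (z : X.P) (D : Cart X) (n : ℕ) (y w : (subM hX z).P) (h : y ⤳ w)
    (c : (subM hX z).kap y) : (⟨w, h⟩ : (subM (isVar_sub hX z) y).P) ∈
      nz (resD (isVar_sub hX z) y (resD hX z D)) n c ↔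
      (⟨w.1, (subM_spec hX z y w).1 h⟩ : (subM hX y.1).P) ∈ nz (resD hX y.1 D) n (kapE hX z y c) := by
  have h5 := res_eq hX z D y w h
  change Un (subO (subM hX z) y w) (c * (resD (isVar_sub hX z) y (resD hX z D)).eq ⟨w, h⟩ ^ n) ↔
    Un (subO X y.1 w.1) (kapE hX z y c * (resD hX y.1 D).eq ⟨w.1, _⟩ ^ n)
  rw [res_un hX z h, map_mul, map_pow, h5]

/-- **the numbers of sections** -/
theorem h0_res (hX : IsVar X) (z : X.P) (D : Cart X) (n : ℕ) (y : (subM hX z).P) :
    h0 (resD (isVar_sub hX z) y (resD hX z D)) n = h0 (resD hX y.1 D) n := by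
  unfold h0
  refine LinearEquiv.finrank_eq (LinearEquiv.ofSubmodules (kapE hX z y).toLinearEquiv _ _ ?_)
  ext c
  rw [Submodule.mem_map]
  constructor
  · rintro ⟨b, hb, rfl⟩
    exact (res_sec hX z D n y b).1 hb
  · intro hc
    refine ⟨(kapE hX z y).symm c, ?_, (kapE hX z y).apply_symm_apply c⟩
    refine (res_sec hX z D n y _).2 ?_
    rw [AlgEquiv.apply_symm_apply]
    exact hc

/-- the sections which vanish at a point -/
theorem hv_res (hX : IsVar X) (z : X.P) (D : Cart X) (y w : (subM hX z).P) (h : y ⤳ w) :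
    hv (⟨w, h⟩ : (subM (isVar_sub hX z) y).P) (resD (isVar_sub hX z) y (resD hX z D)) =
      hv (⟨w.1, (subM_spec hX z y w).1 h⟩ : (subM hX y.1).P) (resD hX y.1 D) := by
  unfold hv
  refine LinearEquiv.finrank_eq (LinearEquiv.ofSubmodules (kapE hX z y).toLinearEquiv _ _ ?_)
  have key : ∀ c, c ∈ secv (⟨w, h⟩ : (subM (isVar_sub hX z) y).P) (resD (isVar_sub hX z) y (resD hX z D)) ↔
      kapE hX z y c ∈ secv (⟨w.1, (subM_spec hX z y w).1 h⟩ : (subM hX y.1).P) (resD hX y.1 D) := by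
    intro c
    rw [mem_secv, mem_secv]
    have h1 := res_nz hX z D 1 y w h c
    change Un _ (c * _ ^ 1) ↔ Un _ (kapE hX z y c * _ ^ 1) at h1
    rw [pow_one, pow_one] at h1
    exact and_congr (res_sec hX z D 1 y c) (not_congr h1)
  ext c
  rw [Submodule.mem_map]
  constructor
  · rintro ⟨b, hb, rfl⟩
    exact (key b).1 hb
  · intro hc
    refine ⟨(kapE hX z y).symm c, (key _).2 ?_, (kapE hX z y).apply_symm_apply c⟩
    rw [AlgEquiv.apply_symm_apply]
    exact hc

end Pool.Agent.H41.ZP
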